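import Mathlib
import Pool.Agent.Q256.VT.Fin

set_option autoImplicit false

namespace Pool.Agent.Q256.CV

open Finset MvPolynomial
open Pool.Agent.Q256.CI Pool.Agent.Q256.VT

/-- `F 0, …, F l` are forms in `n + 1` variables of degrees `e, 2 e, …, (l + 1) e`, the coefficients
of `F k` being integers of absolute value at most `H ^ (k + 1)`. -/
def WBox (n l e H : ℕ) : Set (Fin (l + 1) → MvPolynomial (Fin (n + 1)) ℤ) :=
  {F | ∀ k, F k ∈ Box n ((k.1 + 1) * e) (H ^ (k.1 + 1))}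

/-- the number of monomials. -/
def Nk (n e k : ℕ) : ℕ := (n + (k + 1) * e).choose n

theorem Nk_pos (n e k : ℕ) : 1 ≤ Nk n e k := Nat.choose_pos (Nat.le_add_right _ _)

theorem wbox_finite (n l e H : ℕ) : (WBox n l e H).Finite := by
  refine (Set.Finite.pi' (fun k : Fin (l + 1) =>
    finite_box n ((k.1 + 1) * e) (H ^ (k.1 + 1)))).subset ?_
  intro F h
  exact h

/-- integral roots are small. -/
theorem root_bound {n l e H T : ℕ} (hT : 1 ≤ T) (hHT : H ≤ T)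
    (F : Fin (l + 1) → MvPolynomial (Fin (n + 1)) ℤ) (hF : F ∈ WBox n l e H)
    (y : Fin (n + 1) → ℤ) (hy : Prim y) (w : ℤ)
    (hw : w ^ (l + 1) + ∑ k : Fin (l + 1), eval y (F k) * w ^ (l - k.1) = 0) :
    |w| ≤ ((∑ k : Fin (l + 1), Nk n e k.1) * (T * qq y ^ e) : ℕ) := by
  by_contra hcon
  push Not at hcon
  have hq1 : 1 ≤ qq y := qq_pos y hy.ne
  set q : ℤ := (qq y : ℤ) with hq
  have hq1' : (1 : ℤ) ≤ q := by rw [hq]; exact_mod_cast hq1
  have hT' : (1 : ℤ) ≤ T := by exact_mod_cast hT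
  set A : ℤ := T * q ^ e with hA
  have hA1 : 1 ≤ A := by
    have : (1 : ℤ) ≤ q ^ e := one_le_pow₀ hq1'
    nlinarith
  set Λ : ℤ := ∑ k : Fin (l + 1), (Nk n e k.1 : ℤ) with hΛ
  have hΛ1 : 1 ≤ Λ := by
    have h1 : (Nk n e (0 : Fin (l + 1)).1 : ℤ) ≤ Λ :=
      single_le_sum (f := fun k : Fin (l + 1) => (Nk n e k.1 : ℤ))
        (fun k _ => by positivity) (mem_univ 0)
    have h2 : (1 : ℤ) ≤ (Nk n e (0 : Fin (l + 1)).1 : ℤ) := by exact_mod_cast Nk_pos n e _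
    linarith
  have hlt : Λ * A < |w| := by
    rw [hΛ, hA, hq]
    push_cast at hcon
    exact hcon
  have hAw : A ≤ |w| := by nlinarith
  have hw0 : 0 < |w| := by linarith
  have h1 : |w| ^ (l + 1) ≤ ∑ k : Fin (l + 1), |eval y (F k) * w ^ (l - k.1)| := by
    have : w ^ (l + 1) = -∑ k : Fin (l + 1), eval y (F k) * w ^ (l - k.1) := by linarith
    rw [← abs_pow, this, abs_neg]
    exact abs_sum_le_sum_abs _ _
  have h2 : ∀ k : Fin (l + 1), |eval y (F k) * w ^ (l - k.1)| ≤ (Nk n e k.1 : ℤ) * (A * |w| ^ l) := by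
    intro k
    have hbox : F k ∈ Box n ((k.1 + 1) * e) (T ^ (k.1 + 1)) :=
      ⟨(hF k).1, fun α => ((hF k).2 α).trans (by
        exact_mod_cast Nat.pow_le_pow_left hHT _)⟩
    have h3 := size (F k) hbox y (qq y : ℕ) (by positivity) (le_qq y)
    have h4 : |eval y (F k)| ≤ (Nk n e k.1 : ℤ) * A ^ (k.1 + 1) := by
      refine h3.trans (le_of_eq ?_)
      rw [hA, mul_pow, hq]
      unfold Nk
      push_cast
      ring
    have h5 : A ^ (k.1 + 1) * |w| ^ (l - k.1) ≤ A * |w| ^ l := by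
      have e1 : |w| ^ l = |w| ^ k.1 * |w| ^ (l - k.1) := by
        rw [← pow_add]; congr 1; omega
      rw [e1, pow_succ']
      have e2 : A ^ k.1 ≤ |w| ^ k.1 := pow_le_pow_left₀ (by linarith) hAw _
      calc A * A ^ k.1 * |w| ^ (l - k.1) ≤ A * |w| ^ k.1 * |w| ^ (l - k.1) := by gcongr
        _ = _ := by ring
    rw [abs_mul, abs_pow]
    calc |eval y (F k)| * |w| ^ (l - k.1) ≤ ((Nk n e k.1 : ℤ) * A ^ (k.1 + 1)) * |w| ^ (l - k.1) := by
          gcongr
      _ = (Nk n e k.1 : ℤ) * (A ^ (k.1 + 1) * |w| ^ (l - k.1)) := by ring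
      _ ≤ _ := by gcongr
  have h6 : |w| ^ (l + 1) ≤ Λ * (A * |w| ^ l) := by
    refine h1.trans ((sum_le_sum (fun k _ => h2 k)).trans (le_of_eq ?_))
    rw [← sum_mul]
  have h7 : Λ * (A * |w| ^ l) < |w| ^ (l + 1) := by
    have : (0 : ℤ) < |w| ^ l := by positivity
    calc Λ * (A * |w| ^ l) = (Λ * A) * |w| ^ l := by ring
      _ < |w| * |w| ^ l := by gcongr
      _ = _ := by ring
  linarith

/-- the count for one point. -/
theorem count_y {n l e H T : ℕ} (hT : 1 ≤ T) (hHT : H ≤ T)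
    (y : Fin (n + 1) → ℤ) (hy : Prim y) (hcut : CutOut T (fun k => (y k : ℚ)))
    (A : Finset (Fin (l + 1) → MvPolynomial (Fin (n + 1)) ℤ))
    (hA : ∀ F ∈ A, F ∈ WBox n l e H ∧ ∃ w : ℤ,
      w ^ (l + 1) + ∑ k : Fin (l + 1), eval y (F k) * w ^ (l - k.1) = 0) :
    (#A : ℝ) ≤ (∏ k : Fin l, ((2 * H ^ (k.1 + 1) + 1 : ℕ) : ℝ) ^ Nk n e k.1) *
      (2 * ((∑ k : Fin (l + 1), Nk n e k.1) * (T * qq y ^ e) : ℕ) + 1) *
      (K n ((l + 1) * e) * ((T ^ (l + 1) : ℕ) : ℝ) ^ (Nk n e l - 1) *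
        (((qq y : ℕ) : ℝ) ^ ((l + 1) * e))⁻¹) := by
  classical
  obtain ⟨L, hL, hind, horth⟩ := hcut
  obtain ⟨k0, hk0⟩ := exists_qq y
  have hq1 : 1 ≤ qq y := qq_pos y hy.ne
  set W : ℕ := (∑ k : Fin (l + 1), Nk n e k.1) * (T * qq y ^ e) with hW
  have hex : ∀ F : Fin (l + 1) → MvPolynomial (Fin (n + 1)) ℤ, ∃ w : ℤ, F ∈ A →
      w ^ (l + 1) + ∑ k : Fin (l + 1), eval y (F k) * w ^ (l - k.1) = 0 := by
    intro F
    by_cases hF : F ∈ A
    · obtain ⟨w, hw⟩ := (hA F hF).2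
      exact ⟨w, fun _ => hw⟩
    · exact ⟨0, fun h => absurd h hF⟩
  choose wf hwf using hex
  let B : Finset ((Fin l → MvPolynomial (Fin (n + 1)) ℤ) × ℤ) :=
    (Fintype.piFinset (fun k : Fin l =>
      (finite_box n ((k.1 + 1) * e) (H ^ (k.1 + 1))).toFinset)) ×ˢ Icc (-(W : ℤ)) W
  let f : (Fin (l + 1) → MvPolynomial (Fin (n + 1)) ℤ) →
      (Fin l → MvPolynomial (Fin (n + 1)) ℤ) × ℤ := fun F => (fun k => F k.castSucc, wf F)
  have hmaps : ∀ F ∈ A, f F ∈ B := by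
    intro F hF
    rw [mem_product, Fintype.mem_piFinset, mem_Icc, ← abs_le]
    refine ⟨fun k => ?_, root_bound hT hHT F (hA F hF).1 y hy (wf F) (hwf F hF)⟩
    rw [Set.Finite.mem_toFinset]
    exact (hA F hF).1 k.castSucc
  have h1 : #A = ∑ b ∈ B, #{F ∈ A | f F = b} := card_eq_sum_card_fiberwise hmaps
  have hTT : 1 ≤ T ^ (l + 1) := Nat.one_le_pow _ _ hT
  have hfib : ∀ b ∈ B, (#{F ∈ A | f F = b} : ℝ) ≤
      K n ((l + 1) * e) * ((T ^ (l + 1) : ℕ) : ℝ) ^ (Nk n e l - 1) *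
        (((qq y : ℕ) : ℝ) ^ ((l + 1) * e))⁻¹ := by
    rintro ⟨F', w⟩ _
    set c : ℤ := -(w ^ (l + 1) + ∑ k : Fin l, eval y (F' k) * w ^ (l - k.1)) with hc
    have hmem : ∀ F ∈ ({F ∈ A | f F = (F', w)} : Finset _),
        F (Fin.last l) ∈ (finite_vanC n ((l + 1) * e) (H ^ (l + 1)) y c).toFinset := by
      intro F hF
      rw [mem_filter] at hF
      obtain ⟨hFA, hFf⟩ := hF
      have e1 : (fun k => F (Fin.castSucc k)) = F' := congrArg Prod.fst hFf
      have e2 : wf F = w := congrArg Prod.snd hFf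
      rw [Set.Finite.mem_toFinset]
      refine ⟨(hA F hFA).1 (Fin.last l), ?_⟩
      have h3 := hwf F hFA
      rw [e2, Fin.sum_univ_castSucc] at h3
      simp only [Fin.val_castSucc, Fin.val_last, Nat.sub_self, pow_zero, mul_one] at h3
      rw [hc, ← e1]
      linarith
    have hcard : #({F ∈ A | f F = (F', w)} : Finset _) ≤
        #(finite_vanC n ((l + 1) * e) (H ^ (l + 1)) y c).toFinset := by
      refine Finset.card_le_card_of_injOn (fun F => F (Fin.last l)) hmem ?_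
      intro F hF G hG hFG
      rw [mem_coe, mem_filter] at hF hG
      have e1 : (fun k => F (Fin.castSucc k)) = F' := congrArg Prod.fst hF.2
      have e2 : (fun k => G (Fin.castSucc k)) = F' := congrArg Prod.fst hG.2
      funext k
      refine Fin.lastCases ?_ (fun k => ?_) k
      · exact hFG
      · exact congrFun (e1.trans e2.symm) k
    have hcR : (#({F ∈ A | f F = (F', w)} : Finset _) : ℝ) ≤
        Nat.card (VanC n ((l + 1) * e) (H ^ (l + 1)) y c) := by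
      rw [Nat.card_coe_set_eq, Set.ncard_eq_toFinset_card _
        (finite_vanC n ((l + 1) * e) (H ^ (l + 1)) y c)]
      exact_mod_cast hcard
    refine hcR.trans ?_
    have hL' : ∀ j k, |L j k| ≤ ((T ^ (l + 1) : ℕ) : ℤ) := by
      intro j k
      refine (hL j k).trans ?_
      have : T ≤ T ^ (l + 1) := Nat.le_self_pow (by omega) T
      exact_mod_cast this
    exact countC_real y hy (qq y) hq1 k0 hk0 (T ^ (l + 1)) hTT L hL' hind horth ((l + 1) * e)
      (H ^ (l + 1)) (Nat.pow_le_pow_left hHT _) c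
  rw [h1, Nat.cast_sum]
  refine (sum_le_sum hfib).trans ?_
  rw [sum_const, nsmul_eq_mul]
  have hK0 : 0 ≤ K n ((l + 1) * e) := K_nonneg _ _
  have hnn : (0 : ℝ) ≤ K n ((l + 1) * e) * ((T ^ (l + 1) : ℕ) : ℝ) ^ (Nk n e l - 1) *
        (((qq y : ℕ) : ℝ) ^ ((l + 1) * e))⁻¹ := by positivity
  refine mul_le_mul_of_nonneg_right ?_ hnn
  have hBc : #B = (∏ k : Fin l, (2 * H ^ (k.1 + 1) + 1) ^ Nk n e k.1) * (2 * W + 1) := by
    rw [card_product, Fintype.card_piFinset, Int.card_Icc]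
    congr 1
    · refine prod_congr rfl (fun k _ => ?_)
      rw [← Set.ncard_eq_toFinset_card _ (finite_box n ((k.1 + 1) * e) (H ^ (k.1 + 1))),
        ← Nat.card_coe_set_eq, card_box]
      rfl
    · omega
  rw [hBc]
  push_cast
  exact le_rfl

end Pool.Agent.Q256.CV
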