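import Mathlib
import Pool.Agent.Q256.CV.Basic

set_option autoImplicit false

namespace Pool.Agent.Q256.CV

open Finset MvPolynomial
open Pool.Agent.Q256.CI Pool.Agent.Q256.VT

/-- the covers `w ^ (l + 1) + F_0 (x) w ^ l + ⋯ + F_l (x) = 0` with a rational point over a point
`x` which is cut out by small hyperplanes. -/
def BadC (n l e H T : ℕ) : Set (Fin (l + 1) → MvPolynomial (Fin (n + 1)) ℤ) :=
  {F | F ∈ WBox n l e H ∧ ∃ x : Fin (n + 1) → ℚ, x ≠ 0 ∧ CutOut T x ∧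
    ∃ w : ℚ, w ^ (l + 1) + ∑ k : Fin (l + 1), aeval x (F k) * w ^ (l - k.1) = 0}

theorem aeval_hom {n d : ℕ} (F : MvPolynomial (Fin (n + 1)) ℤ) (hF : F.IsHomogeneous d)
    (x : Fin (n + 1) → ℚ) (c : ℚ) (y : Fin (n + 1) → ℤ) (hy : ∀ k, (y k : ℚ) = c * x k) :
    ((eval y F : ℤ) : ℚ) = c ^ d * aeval x F := by
  have h1 : ((eval y F : ℤ) : ℚ) = aeval (fun k => (y k : ℚ)) F := by
    rw [aeval_def, eval₂_eq', eval_eq']
    push_cast
    rfl
  rw [h1, aeval_def, aeval_def, eval₂_eq', eval₂_eq', mul_sum]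
  refine sum_congr rfl (fun α hα => ?_)
  have h3 : α.degree = d := by
    by_contra h
    exact (mem_support_iff.1 hα) (hF.coeff_eq_zero h)
  have h4 : ∏ i, (y i : ℚ) ^ α i = c ^ d * ∏ i, x i ^ α i := by
    simp_rw [hy, mul_pow]
    rw [prod_mul_distrib, prod_pow_eq_pow_sum, ← h3, Finsupp.degree_eq_sum]
  rw [h4]; ring

/-- rational roots of monic integral polynomials are integers. -/
theorem int_root {l : ℕ} (a : Fin (l + 1) → ℤ) (w : ℚ)
    (hw : w ^ (l + 1) + ∑ k : Fin (l + 1), (a k : ℚ) * w ^ (l - k.1) = 0) :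
    ∃ z : ℤ, (z : ℚ) = w := by
  have hint : IsIntegral ℤ w := by
    let p : Polynomial ℤ := Polynomial.X ^ (l + 1) +
      ∑ k : Fin (l + 1), Polynomial.C (a k) * Polynomial.X ^ (l - k.1)
    refine ⟨p, ?_, ?_⟩
    · apply Polynomial.monic_X_pow_add
      refine lt_of_le_of_lt (Polynomial.degree_sum_le _ _) ?_
      rw [Finset.sup_lt_iff (by exact_mod_cast WithBot.bot_lt_coe (l + 1))]
      intro k _
      refine lt_of_le_of_lt (Polynomial.degree_C_mul_X_pow_le _ _) ?_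
      exact_mod_cast (by omega : l - k.1 < l + 1)
    · simp only [p, Polynomial.eval₂_add, Polynomial.eval₂_pow, Polynomial.eval₂_X,
        Polynomial.eval₂_finsetSum, Polynomial.eval₂_mul, Polynomial.eval₂_C]
      simpa using hw
  obtain ⟨z, hz⟩ := IsIntegrallyClosed.isIntegral_iff.1 hint
  exact ⟨z, by simpa using hz⟩

theorem point {n l e H T : ℕ} (F : Fin (l + 1) → MvPolynomial (Fin (n + 1)) ℤ)
    (hF : F ∈ BadC n l e H T) :
    ∃ y : Fin (n + 1) → ℤ, Prim y ∧ CutOut T (fun k => (y k : ℚ)) ∧ F ∈ WBox n l e H ∧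
      ∃ w : ℤ, w ^ (l + 1) + ∑ k : Fin (l + 1), eval y (F k) * w ^ (l - k.1) = 0 := by
  obtain ⟨hbox, x, hx, ⟨L, hL, hind, horth⟩, w, hw⟩ := hF
  obtain ⟨y, hy, c, hc⟩ := prim x hx
  refine ⟨y, hy, ⟨L, hL, hind, fun j => ?_⟩, hbox, ?_⟩
  · have := horth j
    have h2 : ∑ k, (L j k : ℚ) * (y k : ℚ) = c * ∑ k, (L j k : ℚ) * x k := by
      rw [mul_sum]
      refine sum_congr rfl (fun k _ => ?_)
      rw [hc k]; ring
    rw [h2, this, mul_zero]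
  · have hev : ∀ k : Fin (l + 1), ((eval y (F k) : ℤ) : ℚ) =
        c ^ ((k.1 + 1) * e) * aeval x (F k) := fun k => aeval_hom (F k) (hbox k).1 x c y hc
    have hw' : (c ^ e * w) ^ (l + 1) +
        ∑ k : Fin (l + 1), ((eval y (F k) : ℤ) : ℚ) * (c ^ e * w) ^ (l - k.1) = 0 := by
      have h3 : (c ^ e * w) ^ (l + 1) +
          ∑ k : Fin (l + 1), ((eval y (F k) : ℤ) : ℚ) * (c ^ e * w) ^ (l - k.1) =
          c ^ (e * (l + 1)) * (w ^ (l + 1) + ∑ k : Fin (l + 1), aeval x (F k) * w ^ (l - k.1)) := by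
        rw [mul_add, mul_sum]
        congr 1
        · rw [mul_pow, ← pow_mul]
        · refine sum_congr rfl (fun k _ => ?_)
          rw [hev k, mul_pow, ← pow_mul]
          have e1 : e * (l + 1) = (k.1 + 1) * e + e * (l - k.1) := by
            have : l + 1 = (k.1 + 1) + (l - k.1) := by omega
            calc e * (l + 1) = e * ((k.1 + 1) + (l - k.1)) := by rw [← this]
              _ = _ := by ring
          rw [e1, pow_add]
          ring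
      rw [h3, hw, mul_zero]
    obtain ⟨z, hz⟩ := int_root (fun k => eval y (F k)) (c ^ e * w) hw'
    refine ⟨z, ?_⟩
    rw [← hz] at hw'
    exact_mod_cast hw'

theorem main_cover {n l e : ℕ} (hgt : n + 2 ≤ l * e) :
    ∃ C : ℝ, ∀ H T : ℕ, 1 ≤ T → H ≤ T →
      (Nat.card (BadC n l e H T) : ℝ) ≤
        C * (T : ℝ) ^ ((∑ k : Fin (l + 1), (k.1 + 1) * Nk n e k.1) - l) := by
  classical
  set Λ : ℕ := ∑ k : Fin (l + 1), Nk n e k.1 with hΛ
  have hΛ1 : 1 ≤ Λ := by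
    refine le_trans (Nk_pos n e (0 : Fin (l + 1)).1) ?_
    exact single_le_sum (f := fun k : Fin (l + 1) => Nk n e k.1) (fun k _ => Nat.zero_le _)
      (mem_univ 0)
  set Q : ℝ := (3 : ℝ) ^ (∑ k : Fin l, Nk n e k.1) * (3 * Λ) * K n ((l + 1) * e) with hQ
  have hK0 : 0 ≤ K n ((l + 1) * e) := K_nonneg _ _
  have hQ0 : 0 ≤ Q := by positivity
  refine ⟨Q * ∑' y : Fin (n + 1) → ℤ, (‖(fun k => (y k : ℝ))‖⁻¹) ^ (n + 2), ?_⟩
  intro H T hT hHT
  have hTr : (1 : ℝ) ≤ T := by exact_mod_cast hT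
  have hfin : (BadC n l e H T).Finite := (wbox_finite n l e H).subset (fun F h => h.1)
  have key : ∀ F : Fin (l + 1) → MvPolynomial (Fin (n + 1)) ℤ, ∃ y : Fin (n + 1) → ℤ,
      F ∈ BadC n l e H T → Prim y ∧ CutOut T (fun k => (y k : ℚ)) ∧ F ∈ WBox n l e H ∧
      ∃ w : ℤ, w ^ (l + 1) + ∑ k : Fin (l + 1), eval y (F k) * w ^ (l - k.1) = 0 := by
    intro F
    by_cases hF : F ∈ BadC n l e H T
    · obtain ⟨y, hy⟩ := point F hF
      exact ⟨y, fun _ => hy⟩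
    · exact ⟨0, fun h => absurd h hF⟩
  choose Y hY using key
  let B : Finset (Fin (l + 1) → MvPolynomial (Fin (n + 1)) ℤ) := hfin.toFinset
  have hB : ∀ F, F ∈ B ↔ F ∈ BadC n l e H T := fun F => Set.Finite.mem_toFinset _
  have hcard : Nat.card (BadC n l e H T) = #B := by
    rw [Nat.card_coe_set_eq, Set.ncard_eq_toFinset_card _ hfin]
  rw [hcard, card_eq_sum_card_image Y B]
  push_cast
  set M : ℕ := (∑ k : Fin (l + 1), (k.1 + 1) * Nk n e k.1) - l with hM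
  have hone : ∀ y ∈ B.image Y, (#{F ∈ B | Y F = y} : ℝ) ≤
      Q * (T : ℝ) ^ M * (‖(fun k => (y k : ℝ))‖⁻¹) ^ (n + 2) := by
    intro y hy
    obtain ⟨F0, hF0, rfl⟩ := Finset.mem_image.1 hy
    obtain ⟨hprim, hcut, -⟩ := hY F0 ((hB F0).1 hF0)
    set y := Y F0 with hydef
    have hq1 : 1 ≤ qq y := qq_pos y hprim.ne
    have hq1r : (1 : ℝ) ≤ ((qq y : ℕ) : ℝ) := by exact_mod_cast hq1
    have hq0 : (0 : ℝ) < ((qq y : ℕ) : ℝ) := by linarith
    have h1 := count_y hT hHT y hprim hcut {F ∈ B | Y F = y} (by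
      intro F hF
      rw [mem_filter] at hF
      have := hY F ((hB F).1 hF.1)
      rw [hF.2] at this
      exact ⟨this.2.2.1, this.2.2.2⟩)
    refine h1.trans ?_
    have h2 : ∏ k : Fin l, ((2 * H ^ (k.1 + 1) + 1 : ℕ) : ℝ) ^ Nk n e k.1 ≤
        (3 : ℝ) ^ (∑ k : Fin l, Nk n e k.1) * (T : ℝ) ^ (∑ k : Fin l, (k.1 + 1) * Nk n e k.1) := by
      rw [← prod_pow_eq_pow_sum, ← prod_pow_eq_pow_sum, ← prod_mul_distrib]
      refine prod_le_prod (fun k _ => by positivity) (fun k _ => ?_)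
      rw [pow_mul, ← mul_pow]
      refine pow_le_pow_left₀ (by positivity) ?_ _
      push_cast
      have e1 : (H : ℝ) ^ (k.1 + 1) ≤ (T : ℝ) ^ (k.1 + 1) :=
        pow_le_pow_left₀ (by positivity) (by exact_mod_cast hHT) _
      have e2 : (1 : ℝ) ≤ (T : ℝ) ^ (k.1 + 1) := one_le_pow₀ hTr
      linarith
    have h3 : (2 * ((Λ * (T * qq y ^ e) : ℕ) : ℝ) + 1) ≤ 3 * Λ * (T * ((qq y : ℕ) : ℝ) ^ e) := by
      have e1 : 1 ≤ Λ * (T * qq y ^ e) := by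
        have : 1 ≤ qq y ^ e := Nat.one_le_pow _ _ hq1
        exact Nat.one_le_iff_ne_zero.2 (by positivity)
      have e2 : (1 : ℝ) ≤ ((Λ * (T * qq y ^ e) : ℕ) : ℝ) := by exact_mod_cast e1
      push_cast at e2 ⊢
      linarith
    have h4 : ((T ^ (l + 1) : ℕ) : ℝ) ^ (Nk n e l - 1) = (T : ℝ) ^ ((l + 1) * (Nk n e l - 1)) := by
      push_cast
      rw [← pow_mul]
    rw [h4, norm_eq_qq]
    have h5 : (∏ k : Fin l, ((2 * H ^ (k.1 + 1) + 1 : ℕ) : ℝ) ^ Nk n e k.1) *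
        (2 * ((Λ * (T * qq y ^ e) : ℕ) : ℝ) + 1) ≤
        ((3 : ℝ) ^ (∑ k : Fin l, Nk n e k.1) * (T : ℝ) ^ (∑ k : Fin l, (k.1 + 1) * Nk n e k.1)) *
        (3 * Λ * (T * ((qq y : ℕ) : ℝ) ^ e)) :=
      mul_le_mul h2 h3 (by positivity) (by positivity)
    have h6 : (0 : ℝ) ≤ K n ((l + 1) * e) * (T : ℝ) ^ ((l + 1) * (Nk n e l - 1)) *
        (((qq y : ℕ) : ℝ) ^ ((l + 1) * e))⁻¹ := by positivity
    refine (mul_le_mul_of_nonneg_right h5 h6).trans ?_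
    have h7 : M = (∑ k : Fin l, (k.1 + 1) * Nk n e k.1) + 1 + (l + 1) * (Nk n e l - 1) := by
      rw [hM, Fin.sum_univ_castSucc]
      simp only [Fin.val_castSucc, Fin.val_last]
      have e1 := Nk_pos n e l
      obtain ⟨t, ht⟩ : ∃ t, Nk n e l = t + 1 := ⟨Nk n e l - 1, by omega⟩
      rw [ht]
      have e2 : (l + 1) * (t + 1) = (l + 1) * t + l + 1 := by ring
      rw [e2, Nat.add_sub_cancel]
      omega
    have h8 : ((qq y : ℕ) : ℝ) ^ e * (((qq y : ℕ) : ℝ) ^ ((l + 1) * e))⁻¹ =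
        (((qq y : ℕ) : ℝ) ^ (l * e))⁻¹ := by
      have e1 : (l + 1) * e = l * e + e := by ring
      rw [e1, pow_add, mul_inv]
      field_simp
    have h9 : (((qq y : ℕ) : ℝ) ^ (l * e))⁻¹ ≤ (((qq y : ℕ) : ℝ)⁻¹) ^ (n + 2) := by
      rw [inv_pow]
      exact inv_anti₀ (pow_pos hq0 _) (pow_le_pow_right₀ hq1r hgt)
    calc ((3 : ℝ) ^ (∑ k : Fin l, Nk n e k.1) * (T : ℝ) ^ (∑ k : Fin l, (k.1 + 1) * Nk n e k.1)) *
        (3 * Λ * (T * ((qq y : ℕ) : ℝ) ^ e)) *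
        (K n ((l + 1) * e) * (T : ℝ) ^ ((l + 1) * (Nk n e l - 1)) *
        (((qq y : ℕ) : ℝ) ^ ((l + 1) * e))⁻¹)
        = Q * ((T : ℝ) ^ (∑ k : Fin l, (k.1 + 1) * Nk n e k.1) * (T : ℝ) ^ 1 *
          (T : ℝ) ^ ((l + 1) * (Nk n e l - 1))) *
          (((qq y : ℕ) : ℝ) ^ e * (((qq y : ℕ) : ℝ) ^ ((l + 1) * e))⁻¹) := by
          rw [hQ]; ring
      _ = Q * (T : ℝ) ^ M * (((qq y : ℕ) : ℝ) ^ (l * e))⁻¹ := by
          rw [← pow_add, ← pow_add, ← h7, h8]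
      _ ≤ _ := mul_le_mul_of_nonneg_left h9 (by positivity)
  calc ∑ y ∈ B.image Y, (#{F ∈ B | Y F = y} : ℝ)
      ≤ ∑ y ∈ B.image Y, Q * (T : ℝ) ^ M * (‖(fun k => (y k : ℝ))‖⁻¹) ^ (n + 2) :=
        sum_le_sum hone
    _ = Q * (T : ℝ) ^ M * ∑ y ∈ B.image Y, (‖(fun k => (y k : ℝ))‖⁻¹) ^ (n + 2) := by
        rw [mul_sum]
    _ ≤ Q * (T : ℝ) ^ M * ∑' y : Fin (n + 1) → ℤ, (‖(fun k => (y k : ℝ))‖⁻¹) ^ (n + 2) := by
        refine mul_le_mul_of_nonneg_left ?_ (by positivity)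
        exact (summ n).sum_le_tsum _ (fun y _ => by positivity)
    _ = _ := by ring

theorem total_cover (n l e H : ℕ) :
    Nat.card (WBox n l e H) = ∏ k : Fin (l + 1), (2 * H ^ (k.1 + 1) + 1) ^ Nk n e k.1 := by
  classical
  have eq : WBox n l e H ≃ (∀ k : Fin (l + 1), Box n ((k.1 + 1) * e) (H ^ (k.1 + 1))) :=
    Equiv.subtypePiEquivPi
  rw [Nat.card_congr eq, Nat.card_pi]
  refine prod_congr rfl (fun k _ => ?_)
  rw [card_box]
  rfl

end Pool.Agent.Q256.CV
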